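import Pool.Agent.Helper74.RN.St

/-! # Project RN: module DEL -/

set_option autoImplicit false

namespace Pool.Agent.Helper48.RN

open Pool.Agent.Helper74 Pool.Agent.Helper74.RN

theorem hDEL : Pool.Agent.Helper74.RN.StDEL := by
  intro G P l
  induction l with
  | nil =>
    intro r hr
    have hr0 : r = 0 := by simpa using hr
    subst hr0
    exact ⟨[], List.Sublist.refl _, rfl, rfl, fun _ _ => rfl⟩
  | cons x t ih =>
    intro r hr
    rcases r with _ | s
    · exact ⟨x :: t, List.Sublist.refl _, rfl, rfl, fun _ _ => rfl⟩
    · by_cases hx : P x = true
      · have h1 : s ≤ t.countP P := by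
          rw [List.countP_cons_of_pos hx] at hr
          omega
        obtain ⟨t', h2, h3, h4, h5⟩ := ih s h1
        refine ⟨t', h2.cons x, ?_, ?_, ?_⟩
        · rw [List.length_cons]; omega
        · rw [List.countP_cons_of_pos hx]; omega
        · intro P' hP'
          have h6 : ¬ (P' x = true) := by
            intro h
            have := hP' x h
            rw [hx] at this
            exact Bool.noConfusion this
          rw [List.countP_cons_of_neg h6]
          exact h5 P' hP'
      · have h1 : s + 1 ≤ t.countP P := by
          rw [List.countP_cons_of_neg hx] at hr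
          exact hr
        obtain ⟨t', h2, h3, h4, h5⟩ := ih (s + 1) h1
        refine ⟨x :: t', h2.cons_cons x, ?_, ?_, ?_⟩
        · rw [List.length_cons, List.length_cons]; omega
        · rw [List.countP_cons_of_neg hx, List.countP_cons_of_neg hx]; exact h4
        · intro P' hP'
          rw [List.countP_cons, List.countP_cons, h5 P' hP']

end Pool.Agent.Helper48.RN
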